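import Mathlib

/-! Local inequality behind `Y ≤ 9 S + P + 6` for trees. -/

namespace Pool.Agent.U464.Wye

open Finset

/-- upper part of the antisymmetric edge potential (scaled by `8`) -/
def g (x y : ℤ) : ℤ :=
  if x = 0 then -24 else if x = 1 then -8 else if x = 2 then 8 * (y - 3)
  else if x = 3 then max 8 (24 * y - 96)
  else max 0 (4 * (x * (x - 1)) * y - 3 * ((x + 1) * x * (x - 1) * (x - 2)) - 24)

/-- the antisymmetric edge potential (scaled by `8`) -/
def H (x y : ℤ) : ℤ := if x < y then g x y else if y < x then - g y x else 0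

theorem H_antisymm (x y : ℤ) : H x y = - H y x := by
  unfold H
  rcases lt_trichotomy x y with h | h | h
  · rw [if_pos h, if_neg (not_lt.2 h.le), if_pos h, neg_neg]
  · subst h; simp
  · rw [if_neg (not_lt.2 h.le), if_pos h, if_pos h]

theorem H_self (x : ℤ) : H x x = 0 := by simp [H]

theorem H_zero_right {x : ℤ} (hx : 0 < x) : H x 0 = 24 := by
  unfold H g
  rw [if_neg (not_lt.2 hx.le), if_pos hx, if_pos rfl]; norm_num

theorem H_one_right {x : ℤ} (hx : 1 < x) : H x 1 = 8 := by
  unfold H g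
  rw [if_neg (not_lt.2 hx.le), if_pos hx, if_neg (by norm_num), if_pos rfl]; norm_num

theorem H_two_right {x : ℤ} (hx : 2 < x) : H x 2 = -(8 * (x - 3)) := by
  unfold H g
  rw [if_neg (not_lt.2 hx.le), if_pos hx, if_neg (by norm_num), if_neg (by norm_num), if_pos rfl]

theorem H_three_right {x : ℤ} (hx : 3 < x) : H x 3 = -(max 8 (24 * x - 96)) := by
  unfold H g
  rw [if_neg (not_lt.2 hx.le), if_pos hx, if_neg (by norm_num), if_neg (by norm_num),
    if_neg (by norm_num), if_pos rfl]

theorem H_lt {x y : ℤ} (hx : 4 ≤ x) (hxy : x < y) :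
    H x y = max 0 (4 * (x * (x - 1)) * y - 3 * ((x + 1) * x * (x - 1) * (x - 2)) - 24) := by
  unfold H g
  rw [if_pos hxy, if_neg (by omega), if_neg (by omega), if_neg (by omega), if_neg (by omega)]

theorem H_gt {x y : ℤ} (hy : 4 ≤ y) (hxy : y < x) :
    H x y = -(max 0 (4 * (y * (y - 1)) * x - 3 * ((y + 1) * y * (y - 1) * (y - 2)) - 24)) := by
  rw [H_antisymm, H_lt hy hxy]

theorem H_nonneg_of_le {x y : ℤ} (hx : 4 ≤ x) (hxy : x ≤ y) : 0 ≤ H x y := by
  rcases eq_or_lt_of_le hxy with h | h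
  · rw [← h, H_self]
  · rw [H_lt hx h]; exact le_max_left _ _

/-- for `x ≥ 5` the potential has a linear minorant -/
theorem H_ge5 {x y : ℤ} (hx : 5 ≤ x) (hy : 0 ≤ y) : 24 - x * (x - 1) * y ≤ H x y := by
  rcases le_or_gt x y with hxy | hxy
  · have h := H_nonneg_of_le (by omega : (4:ℤ) ≤ x) hxy
    have : 20 ≤ x * (x - 1) := by nlinarith
    nlinarith
  · have h0 : y = 0 ∨ y = 1 ∨ y = 2 ∨ y = 3 ∨ 4 ≤ y := by omega
    rcases h0 with h | h | h | h | h
    · subst h; rw [H_zero_right (by omega)]; simp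
    · subst h; rw [H_one_right (by omega)]; nlinarith
    · subst h; rw [H_two_right (by omega)]; nlinarith
    · subst h; rw [H_three_right (by omega), le_neg, max_le_iff]
      constructor <;> nlinarith [sq_nonneg (x - 5), sq_nonneg (2 * x - 9)]
    · rw [H_gt h hxy, le_neg, max_le_iff]
      constructor
      · have : 20 ≤ x * (x - 1) := by nlinarith
        nlinarith
      · -- `4 y (y-1) x - 3 (y+1) y (y-1) (y-2) ≤ x (x-1) y`
        have key : 4 * (y - 1) * x - 3 * ((y + 1) * (y - 1) * (y - 2)) ≤ x * (x - 1) := by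
          obtain ⟨t, rfl⟩ : ∃ t, y = t + 4 := ⟨y - 4, by ring⟩
          have ht : 0 ≤ t := by linarith
          nlinarith [sq_nonneg (2 * x - (4 * (t + 4 - 1) + 1)), mul_nonneg ht ht,
            mul_nonneg (mul_nonneg ht ht) ht]
        have h2 := mul_le_mul_of_nonneg_left key (by linarith : (0:ℤ) ≤ y)
        nlinarith

/-- linear minorant for `x = 4` -/
theorem H_ge4 {y : ℤ} (hy : 0 ≤ y) : 24 - 16 * y ≤ H 4 y := by
  rcases le_or_gt 4 y with hxy | hxy
  · have h := H_nonneg_of_le (le_refl (4:ℤ)) hxy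
    linarith
  · interval_cases y <;> decide

/-- linear minorant for `x = 3` -/
theorem H_ge3 {y : ℤ} (hy : 0 ≤ y) : 24 - 16 * y ≤ H 3 y := by
  rcases le_or_gt 4 y with hxy | hxy
  · have h : H 3 y = max 8 (24 * y - 96) := by
      unfold H g
      rw [if_pos (by omega), if_neg (by norm_num), if_neg (by norm_num), if_neg (by norm_num),
        if_pos rfl]
    rw [h]
    have := le_max_left (8:ℤ) (24 * y - 96)
    linarith
  · interval_cases y <;> decide

/-- linear minorant for `x = 2` -/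
theorem H_ge2 {y : ℤ} (hy : 0 ≤ y) : 24 - 16 * y ≤ H 2 y := by
  rcases le_or_gt 3 y with hxy | hxy
  · have h : H 2 y = 8 * (y - 3) := by
      unfold H g
      rw [if_pos (by omega), if_neg (by norm_num), if_neg (by norm_num), if_pos rfl]
    rw [h]
    linarith
  · interval_cases y <;> decide

theorem H_one_ge {y : ℤ} (hy : 2 ≤ y) : H 1 y = -8 := by
  unfold H g
  rw [if_pos (by omega), if_neg (by norm_num), if_pos rfl]

theorem H_zero_left {y : ℤ} (hy : 1 ≤ y) : H 0 y = -24 := by
  unfold H g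
  rw [if_pos (by omega), if_pos rfl]

/-- linear minorant for `x = 1` -/
theorem H_ge1 {y : ℤ} (hy : 0 ≤ y) : 24 - 24 * y ≤ H 1 y := by
  rcases le_or_gt 2 y with hxy | hxy
  · rw [H_one_ge hxy]; linarith
  · interval_cases y <;> decide

theorem H_ge1' {y : ℤ} (hy : 0 ≤ y) : -8 ≤ H 1 y := by
  rcases le_or_gt 2 y with hxy | hxy
  · rw [H_one_ge hxy]
  · interval_cases y <;> decide

section core

variable {ι : Type*} [DecidableEq ι]

/-- the local expression (scaled by `8`) -/
def E (x : ℤ) (s : Finset ι) (f : ι → ℤ) : ℤ :=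
  3 * ((x + 1) * x * (x - 1) * (x - 2)) + 4 * ((∑ i ∈ s, f i) ^ 2 - ∑ i ∈ s, f i ^ 2)
    - 4 * (x * (x - 1)) * (∑ i ∈ s, f i) + (∑ i ∈ s, H x (f i)) - 24 * (x - 1)

/-- bound obtained from a pointwise minorant `-4 f ^ 2 + H x f ≥ 24 - κ f` -/
theorem E_ge_of_all (x κ : ℤ) (s : Finset ι) (f : ι → ℤ) (hs : (s.card : ℤ) = x + 1)
    (h : ∀ i ∈ s, 24 - κ * f i ≤ -4 * f i ^ 2 + H x (f i)) :
    3 * ((x + 1) * x * (x - 1) * (x - 2)) + 4 * (∑ i ∈ s, f i) ^ 2
      - (4 * (x * (x - 1)) + κ) * (∑ i ∈ s, f i) + 48 ≤ E x s f := by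
  have h1 := Finset.sum_le_sum h
  rw [Finset.sum_sub_distrib, Finset.sum_const, ← Finset.mul_sum, Finset.sum_add_distrib,
    ← Finset.mul_sum, nsmul_eq_mul, hs] at h1
  unfold E
  linarith

/-- bound obtained by separating a term, and a pointwise minorant `H x f ≥ 24 - D f` -/
theorem E_ge_of_max (x D : ℤ) (s : Finset ι) (f : ι → ℤ) (hs : (s.card : ℤ) = x + 1)
    (i0 : ι) (hi0 : i0 ∈ s) (hf : ∀ i ∈ s, 0 ≤ f i) (hm : ∀ i ∈ s, f i ≤ f i0)
    (h : ∀ i ∈ s, 24 - D * f i ≤ H x (f i)) :
    ∃ R Q : ℤ, 0 ≤ R ∧ Q ≤ R ^ 2 ∧ Q ≤ f i0 * R ∧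
    3 * ((x + 1) * x * (x - 1) * (x - 2)) + 4 * (2 * f i0 * R + R ^ 2 - Q)
      - 4 * (x * (x - 1)) * (f i0 + R) + H x (f i0) - D * R + 24 ≤ E x s f := by
  refine ⟨∑ i ∈ s.erase i0, f i, ∑ i ∈ s.erase i0, f i ^ 2, ?_, ?_, ?_, ?_⟩
  · exact Finset.sum_nonneg (fun i hi => hf i (Finset.mem_of_mem_erase hi))
  · exact Finset.sum_sq_le_sq_sum_of_nonneg (fun i hi => hf i (Finset.mem_of_mem_erase hi))
  · rw [Finset.mul_sum]
    apply Finset.sum_le_sum
    intro i hi
    have h1 := hf i (Finset.mem_of_mem_erase hi)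
    have h2 := hm i (Finset.mem_of_mem_erase hi)
    nlinarith
  · have e1 := Finset.add_sum_erase s f hi0
    have e2 := Finset.add_sum_erase s (fun i => f i ^ 2) hi0
    have e3 := Finset.add_sum_erase s (fun i => H x (f i)) hi0
    have h1 := Finset.sum_le_sum (fun i (hi : i ∈ s.erase i0) => h i (Finset.mem_of_mem_erase hi))
    have hc : ((s.erase i0).card : ℤ) = x := by
      rw [Finset.card_erase_of_mem hi0, Nat.cast_sub (Finset.card_pos.2 ⟨i0, hi0⟩), hs]; simp
    rw [Finset.sum_sub_distrib, Finset.sum_const, ← Finset.mul_sum, nsmul_eq_mul, hc] at h1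
    unfold E
    rw [← e1, ← e2, ← e3]
    nlinarith

theorem E_nonneg (x : ℤ) (hx : 0 ≤ x) (s : Finset ι) (f : ι → ℤ) (hs : (s.card : ℤ) = x + 1)
    (hf : ∀ i ∈ s, 0 ≤ f i) : 0 ≤ E x s f := by
  have hne : s.Nonempty := by
    rw [← Finset.card_pos]; omega
  obtain ⟨i0, hi0, hm⟩ := Finset.exists_max_image s f hne
  have hy0 : 0 ≤ f i0 := hf i0 hi0
  have hcase : x = 0 ∨ x = 1 ∨ x = 2 ∨ x = 3 ∨ x = 4 ∨ 5 ≤ x := by omega
  rcases hcase with h | h | h | h | h | h
  · subst h
    have hc : s.card = 1 := by omega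
    obtain ⟨i, rfl⟩ := Finset.card_eq_one.1 hc
    have := hf i (by simp)
    unfold E
    simp only [Finset.sum_singleton]
    rcases eq_or_lt_of_le this with h | h
    · rw [← h]; norm_num [H]
    · rw [H_zero_left h]; norm_num
  · subst h
    have hc : s.card = 2 := by omega
    obtain ⟨a, b, hab, rfl⟩ := Finset.card_eq_two.1 hc
    have ha := hf a (by simp)
    have hb := hf b (by simp)
    unfold E
    rw [Finset.sum_pair hab, Finset.sum_pair hab, Finset.sum_pair hab]
    generalize f a = u at *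
    generalize f b = v at *
    have key : 0 ≤ 8 * (u * v) + (H 1 u + H 1 v) := by
      have hu : u = 0 ∨ u = 1 ∨ 2 ≤ u := by omega
      have hv : v = 0 ∨ v = 1 ∨ 2 ≤ v := by omega
      have e0 : H 1 0 = 24 := by decide
      have e1 : H 1 1 = 0 := by decide
      rcases hu with hu | hu | hu <;> rcases hv with hv | hv | hv
      · subst hu; subst hv; rw [e0]; norm_num
      · subst hu; subst hv; rw [e0, e1]; norm_num
      · subst hu; rw [e0, H_one_ge hv]; norm_num
      · subst hu; subst hv; rw [e0, e1]; norm_num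
      · subst hu; subst hv; rw [e1]; norm_num
      · subst hu; rw [e1, H_one_ge hv]; linarith
      · subst hv; rw [e0, H_one_ge hu]; norm_num
      · subst hv; rw [e1, H_one_ge hu]; linarith
      · rw [H_one_ge hu, H_one_ge hv]; nlinarith
    nlinarith
  · subst h
    rcases le_or_gt 3 (f i0) with h | h
    · obtain ⟨R, Q, hR, hQ1, hQ2, hE⟩ := E_ge_of_max 2 16 s f hs i0 hi0 hf hm
        (fun i hi => H_ge2 (hf i hi))
      have e : H 2 (f i0) = 8 * (f i0 - 3) := by
        rcases eq_or_lt_of_le h with h' | h'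
        · rw [← h']; decide
        · unfold H g
          rw [if_pos (by omega), if_neg (by norm_num), if_neg (by norm_num), if_pos rfl]
      rw [e] at hE
      nlinarith
    · have h1 := E_ge_of_all 2 20 s f hs (by
        intro i hi
        have h2 := hf i hi
        have h3 := hm i hi
        generalize f i = y at *
        have : y = 0 ∨ y = 1 ∨ y = 2 := by omega
        rcases this with h | h | h <;> subst h <;> decide)
      set S := ∑ i ∈ s, f i
      have : 0 ≤ (S - 3) * (S - 4) := by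
        rcases le_or_gt S 3 with h | h
        · nlinarith
        · nlinarith
      nlinarith
  · subst h
    rcases le_or_gt 5 (f i0) with h | h
    · obtain ⟨R, Q, hR, hQ1, hQ2, hE⟩ := E_ge_of_max 3 16 s f hs i0 hi0 hf hm
        (fun i hi => H_ge3 (hf i hi))
      have e : H 3 (f i0) = 24 * f i0 - 96 := by
        unfold H g
        rw [if_pos (by omega), if_neg (by norm_num), if_neg (by norm_num), if_neg (by norm_num),
          if_pos rfl, max_eq_right (by omega)]
      rw [e] at hE
      nlinarith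
    · have h1 := E_ge_of_all 3 20 s f hs (by
        intro i hi
        have h2 := hf i hi
        have h3 := hm i hi
        generalize f i = y at *
        have : y = 0 ∨ y = 1 ∨ y = 2 ∨ y = 3 ∨ y = 4 := by omega
        rcases this with h | h | h | h | h <;> subst h <;> decide)
      set S := ∑ i ∈ s, f i
      have : 0 ≤ (S - 5) * (S - 6) := by
        rcases le_or_gt S 5 with h | h
        · nlinarith
        · nlinarith
      nlinarith
  · subst h
    rcases le_or_gt 8 (f i0) with h | h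
    · obtain ⟨R, Q, hR, hQ1, hQ2, hE⟩ := E_ge_of_max 4 16 s f hs i0 hi0 hf hm
        (fun i hi => H_ge4 (hf i hi))
      have e : H 4 (f i0) = 48 * f i0 - 384 := by
        rw [H_lt (le_refl _) (by omega), max_eq_right (by omega)]
        ring
      rw [e] at hE
      nlinarith
    · have h1 := E_ge_of_all 4 32 s f hs (by
        intro i hi
        have h2 := hf i hi
        have h3 := hm i hi
        generalize f i = y at *
        have : y = 0 ∨ y = 1 ∨ y = 2 ∨ y = 3 ∨ y = 4 ∨ y = 5 ∨ y = 6 ∨ y = 7 := by omega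
        rcases this with h | h | h | h | h | h | h | h <;> subst h <;> decide)
      set S := ∑ i ∈ s, f i
      nlinarith [sq_nonneg (S - 10)]
  · obtain ⟨R, Q, hR, hQ1, hQ2, hE⟩ := E_ge_of_max x (x * (x - 1)) s f hs i0 hi0 hf hm
      (fun i hi => H_ge5 h (hf i hi))
    obtain ⟨p, hp⟩ : ∃ p, p = x * (x - 1) := ⟨_, rfl⟩
    have hp4 : 4 * x ≤ p := by nlinarith
    have hp20 : 20 ≤ p := by nlinarith
    have e0 : 3 * ((x + 1) * x * (x - 1) * (x - 2)) = 3 * p ^ 2 - 6 * p := by
      rw [hp]; ring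
    rw [e0, ← hp] at hE
    refine le_trans ?_ hE
    generalize f i0 = y at *
    rcases le_or_gt y x with hyx | hyx
    · -- `y ≤ x`
      have h1 := H_ge5 h hy0
      rw [← hp] at h1
      have hy4 : 4 * y ≤ p := by linarith
      rcases le_or_gt R y with hRy | hRy
      · have a1 : 0 ≤ (y - R) * (5 * p - 8 * y) := mul_nonneg (by linarith) (by linarith)
        have a2 : p ^ 2 ≤ (3 * p - 4 * y) * (p - 2 * y) := by
          nlinarith [mul_nonneg (by linarith : 0 ≤ p - 4 * y) (by linarith : 0 ≤ p - 2 * y)]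
        nlinarith [sq_nonneg (p - 3)]
      · have a1 := sq_nonneg (8 * R + (4 * y - 5 * p))
        have a2 : 0 ≤ 12 * p ^ 2 - 96 * p + 768 := by nlinarith [sq_nonneg (p - 4)]
        have a3 : 40 * (p * y) ≤ 10 * p ^ 2 := by nlinarith
        have a4 : 16 * y ^ 2 ≤ p ^ 2 := by nlinarith
        have a5 : Q ≤ y * R := hQ2
        nlinarith
    · have h1 := H_lt (by omega : 4 ≤ x) hyx
      have h2 : 4 * p * y - (3 * p ^ 2 - 6 * p) - 24 ≤ H x y := by
        rw [h1, e0, ← hp]; exact le_max_right _ _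
      have h3 : 0 ≤ H x y := by
        rw [h1]; exact le_max_left _ _
      rcases le_or_gt (5 * p) (8 * y) with h5 | h5
      · nlinarith
      · rcases le_or_gt R y with hRy | hRy
        · have a1 : 0 ≤ (y - R) * (5 * p - 8 * y) := mul_nonneg (by linarith) (by linarith)
          have a2 := sq_nonneg (16 * y - 9 * p)
          have a3 : 0 ≤ 15 * p ^ 2 - 192 * p + 768 := by nlinarith [sq_nonneg (5 * p - 32)]
          nlinarith
        · rcases le_or_gt (5 * p) (12 * y) with h6 | h6
          · have a1 : 0 ≤ (R - y) * (12 * y - 5 * p) := mul_nonneg (by linarith) (by linarith)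
            have a2 := sq_nonneg (16 * y - 9 * p)
            have a3 : 0 ≤ 15 * p ^ 2 - 192 * p + 768 := by nlinarith [sq_nonneg (5 * p - 32)]
            have a4 := sq_nonneg (R - y)
            nlinarith
          · have a1 := sq_nonneg (8 * R + 4 * y - 5 * p)
            have a2 : 24 * (p * y) ≤ 10 * p ^ 2 := by nlinarith
            have a3 : 16 * y ^ 2 ≤ 3 * p ^ 2 := by
              have : (12 * y) ^ 2 ≤ (5 * p) ^ 2 := pow_le_pow_left₀ (by linarith) h6.le 2
              nlinarith [sq_nonneg p]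
            have a4 : 0 ≤ 10 * p ^ 2 - 96 * p + 384 := by
              linarith [sq_nonneg (5 * p - 24)]
            linarith

end core

end Pool.Agent.U464.Wye
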