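import Pool.Agent.Q117.YT.Formula
import Pool.Agent.Q117.YT.Region
import Pool.Agent.U464.WyeLocal

/-! Global inequalities for the numbers of stars, paths and wyes in trees. -/

set_option linter.unusedSectionVars false

namespace Pool.Agent.U464.Wye

open SimpleGraph Finset Pool.Agent.Q117.YT

variable {V : Type} [Fintype V] [DecidableEq V] (G : SimpleGraph V) [DecidableRel G.Adj]

/-- an antisymmetric function sums to zero over the ordered edges -/
theorem sum_antisymm (h : ℤ → ℤ → ℤ) (hh : ∀ x y, h x y = - h y x) (a : V → ℤ) :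
    ∑ v, ∑ u ∈ G.neighborFinset v, h (a v) (a u) = 0 := by
  have e1 : ∀ v, ∑ u ∈ G.neighborFinset v, h (a v) (a u)
      = ∑ u, if G.Adj v u then h (a v) (a u) else 0 := by
    intro v
    rw [← Finset.sum_filter]
    apply Finset.sum_congr
    · ext u; simp
    · intro _ _; rfl
  have e2 : ∑ v, ∑ u ∈ G.neighborFinset v, h (a v) (a u)
      = - ∑ v, ∑ u ∈ G.neighborFinset v, h (a v) (a u) := by
    rw [Finset.sum_congr rfl (fun v _ => e1 v)]
    conv_lhs => rw [Finset.sum_comm]
    rw [← Finset.sum_neg_distrib]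
    apply Finset.sum_congr rfl
    intro v _
    rw [← Finset.sum_neg_distrib]
    apply Finset.sum_congr rfl
    intro u _
    by_cases hvu : G.Adj v u
    · rw [if_pos hvu, if_pos hvu.symm, hh]
    · rw [if_neg hvu, if_neg (fun h' => hvu h'.symm), neg_zero]
  linarith

theorem sum_av (hG : G.IsTree) : ∑ v, (av G v - 1) = -2 := by
  have h1 := G.sum_degrees_eq_twice_card_edges
  have h2 := (SimpleGraph.isTree_iff_connected_and_card.1 hG).2
  have h3 : Nat.card G.edgeSet = G.edgeFinset.card := by
    rw [Nat.card_eq_fintype_card, ← Set.toFinset_card]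
    rfl
  rw [h3, Nat.card_eq_fintype_card] at h2
  have h4 : ∑ v, (av G v - 1) = ((∑ v, G.degree v : ℕ) : ℤ) - 2 * (Fintype.card V : ℤ) := by
    unfold av
    rw [Finset.sum_sub_distrib, Finset.sum_sub_distrib]
    push_cast
    simp
    ring
  rw [h4, h1, ← h2]
  push_cast
  ring

theorem one_le_degree (hG : G.IsTree) (hn : 2 ≤ Fintype.card V) (v : V) : 1 ≤ G.degree v := by
  have : Nontrivial V := Fintype.one_lt_card_iff_nontrivial.1 (by omega)
  exact hG.connected.preconnected.degree_pos_of_nontrivial v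

theorem av_nonneg (hG : G.IsTree) (hn : 2 ≤ Fintype.card V) (v : V) : 0 ≤ av G v := by
  have := one_le_degree G hG hn v
  unfold av
  omega

theorem wye_bound_int (hG : G.IsTree) (hn : 2 ≤ Fintype.card V) :
    (cY G : ℤ) ≤ 9 * cS G + cP G + 6 := by
  have hE : ∀ v ∈ (Finset.univ : Finset V), 0 ≤ E (av G v) (G.neighborFinset v) (av G) := by
    intro v _
    apply E_nonneg _ (av_nonneg G hG hn v)
    · rw [card_neighborFinset_eq_degree]; unfold av; ring
    · intro u _; exact av_nonneg G hG hn u
  have h := Finset.sum_nonneg hE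
  unfold E at h
  have hS := formula_S G
  have hY := formula_Y G hG.isAcyclic
  have hP := formula_P G hG.isAcyclic
  have hH := sum_antisymm G H H_antisymm (av G)
  have hA := sum_av G hG
  have hY' : 2 * (cY G : ℤ) = ∑ v, (av G v * (av G v - 1)) * ∑ u ∈ G.neighborFinset v, av G u := by
    rw [hY]
    apply Finset.sum_congr rfl
    intro v _
    rw [Finset.mul_sum]
    apply Finset.sum_congr rfl
    intro u _
    ring
  rw [Finset.sum_sub_distrib, Finset.sum_add_distrib, Finset.sum_sub_distrib,
    Finset.sum_add_distrib, ← Finset.mul_sum, ← Finset.mul_sum, ← Finset.mul_sum, ← hS, ← hP,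
    hH, hA] at h
  have h5 : ∑ v, 4 * (av G v * (av G v - 1)) * ∑ u ∈ G.neighborFinset v, av G u
      = 4 * (2 * (cY G : ℤ)) := by
    rw [hY', Finset.mul_sum]
    apply Finset.sum_congr rfl
    intro v _
    ring
  rw [h5] at h
  linarith

/-- potential used to bound the number of all five-vertex subtrees -/
def h2 (x y : ℤ) : ℤ := if 0 < x ∧ y = 0 then 1 else if 0 < y ∧ x = 0 then -1 else 0

theorem h2_antisymm (x y : ℤ) : h2 x y = - h2 y x := by
  unfold h2
  split_ifs <;> omega

theorem h2_ge {x y : ℤ} (hx : 0 < x) (hy : 0 ≤ y) : 1 - y ≤ h2 x y := by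
  unfold h2
  split_ifs <;> omega

theorem local2 {ι : Type} [DecidableEq ι] (x : ℤ) (hx : 0 ≤ x) (s : Finset ι) (f : ι → ℤ)
    (hs : (s.card : ℤ) = x + 1) (hf : ∀ i ∈ s, 0 ≤ f i) :
    0 ≤ (x + 1) * x * (x - 1) * (x - 2) + 12 * ((∑ i ∈ s, f i) ^ 2 - ∑ i ∈ s, f i ^ 2)
      + 12 * ((x * (x - 1)) * (∑ i ∈ s, f i)) + 24 * (∑ i ∈ s, h2 x (f i)) - 24
      - 48 * (x - 1) := by
  have hsq : ∑ i ∈ s, f i ^ 2 ≤ (∑ i ∈ s, f i) ^ 2 := Finset.sum_sq_le_sq_sum_of_nonneg hf
  have hsn : 0 ≤ ∑ i ∈ s, f i := Finset.sum_nonneg hf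
  have hcase : x = 0 ∨ x = 1 ∨ 2 ≤ x := by omega
  rcases hcase with h | h | h
  · subst h
    have hc : s.card = 1 := by omega
    obtain ⟨i, rfl⟩ := Finset.card_eq_one.1 hc
    have h1 : -1 ≤ h2 0 (f i) := by unfold h2; split_ifs <;> omega
    simp only [Finset.sum_singleton]
    nlinarith
  · subst h
    have hc : s.card = 2 := by omega
    obtain ⟨a, b, hab, rfl⟩ := Finset.card_eq_two.1 hc
    have ha := hf a (by simp)
    have hb := hf b (by simp)
    rw [Finset.sum_pair hab, Finset.sum_pair hab, Finset.sum_pair hab]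
    generalize f a = u at *
    generalize f b = v at *
    have e0 : h2 1 0 = 1 := by decide
    have eu : 0 ≤ h2 1 u := by unfold h2; split_ifs <;> omega
    have ev : 0 ≤ h2 1 v := by unfold h2; split_ifs <;> omega
    rcases eq_or_lt_of_le ha with h | h
    · subst h; rw [e0]; nlinarith
    · rcases eq_or_lt_of_le hb with h' | h'
      · subst h'; rw [e0]; nlinarith
      · nlinarith
  · have h1 := Finset.sum_le_sum (fun i (hi : i ∈ s) => h2_ge (by omega : 0 < x) (hf i hi))
    rw [Finset.sum_sub_distrib, Finset.sum_const, nsmul_eq_mul, hs] at h1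
    set S := ∑ i ∈ s, f i
    have h3 : 0 ≤ (x * (x - 1) - 2) * S := mul_nonneg (by nlinarith) hsn
    have h4 : 0 ≤ (x - 2) * ((x + 1) * x * (x - 1) - 24) := by
      rcases eq_or_lt_of_le h with h' | h'
      · rw [← h']; norm_num
      · apply mul_nonneg (by linarith)
        have : 0 ≤ (x - 3) * (x ^ 2 + 3 * x + 8) := mul_nonneg (by linarith) (by nlinarith)
        nlinarith
    nlinarith

/-- a tree on `n` vertices has at least `n - 4` subtrees on five vertices -/
theorem total_bound_int (hG : G.IsTree) (hn : 2 ≤ Fintype.card V) :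
    (Fintype.card V : ℤ) ≤ cP G + cS G + cY G + 4 := by
  have h := Finset.sum_nonneg (fun v (_ : v ∈ (Finset.univ : Finset V)) =>
    local2 (av G v) (av_nonneg G hG hn v) (G.neighborFinset v) (av G)
      (by rw [card_neighborFinset_eq_degree]; unfold av; ring)
      (fun u _ => av_nonneg G hG hn u))
  have hS := formula_S G
  have hY := formula_Y G hG.isAcyclic
  have hP := formula_P G hG.isAcyclic
  have hH := sum_antisymm G h2 h2_antisymm (av G)
  have hA := sum_av G hG
  have hY' : 2 * (cY G : ℤ) = ∑ v, (av G v * (av G v - 1)) * ∑ u ∈ G.neighborFinset v, av G u := by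
    rw [hY]
    apply Finset.sum_congr rfl
    intro v _
    rw [Finset.mul_sum]
    apply Finset.sum_congr rfl
    intro u _
    ring
  rw [Finset.sum_sub_distrib, Finset.sum_sub_distrib, Finset.sum_add_distrib,
    Finset.sum_add_distrib, Finset.sum_add_distrib, ← Finset.mul_sum, ← Finset.mul_sum,
    ← Finset.mul_sum, ← Finset.mul_sum, ← hS, ← hP, hH, hA, ← hY', Finset.sum_const,
    Finset.card_univ, nsmul_eq_mul] at h
  linarith

theorem wye_bound {V : Type} [Fintype V] (T : SimpleGraph V) (hT : T.IsTree) :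
    cY T ≤ 9 * cS T + cP T + 6 := by
  classical
  rcases le_or_gt 2 (Fintype.card V) with hn | hn
  · have := wye_bound_int T hT hn
    exact_mod_cast this
  · have h0 : 2 * (cY T : ℤ) = 0 := by
      rw [formula_Y T hT.isAcyclic]
      apply Finset.sum_eq_zero
      intro v _
      have : T.neighborFinset v = ∅ := by
        rw [Finset.eq_empty_iff_forall_notMem]
        intro u hu
        rw [mem_neighborFinset] at hu
        have : Subsingleton V := Fintype.card_le_one_iff_subsingleton.1 (by omega)
        exact hu.ne (Subsingleton.elim _ _)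
      rw [this, Finset.sum_empty]
    have h1 : cY T = 0 := by omega
    omega

theorem total_bound {V : Type} [Fintype V] (T : SimpleGraph V) (hT : T.IsTree) :
    (Fintype.card V : ℝ) ≤ cZ T + 4 := by
  classical
  unfold cZ
  rcases le_or_gt 2 (Fintype.card V) with hn | hn
  · have := total_bound_int T hT hn
    have h2 : (Fintype.card V : ℝ) ≤ (cP T : ℝ) + cS T + cY T + 4 := by exact_mod_cast this
    linarith
  · have h1 : (Fintype.card V : ℝ) < 2 := by exact_mod_cast hn
    have h2 : (0 : ℝ) ≤ (cP T : ℝ) + cS T + cY T := by positivity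
    linarith

/-- the linear inequality for limiting densities -/
theorem region_bound (q : ℝ × ℝ) (hq : q ∈ PP) : (1 - 2 * q.1) / 10 ≤ q.2 := by
  obtain ⟨p, ⟨V, hV, T, hT, hcard, hlim⟩, rfl⟩ := hq
  have hZ : Filter.Tendsto (fun n => cZ (T n)) Filter.atTop Filter.atTop := by
    have h1 : Filter.Tendsto (fun n => ((Fintype.card (V n) : ℕ) : ℝ) - 4) Filter.atTop
        Filter.atTop :=
      Filter.tendsto_atTop_add_const_right _ (-4) (tendsto_natCast_atTop_atTop.comp hcard)
    apply Filter.tendsto_atTop_mono (f := fun n => ((Fintype.card (V n) : ℕ) : ℝ) - 4) _ h1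
    intro n
    have := total_bound (T n) (hT n)
    linarith
  have h1 : Filter.Tendsto (fun n => (profile (T n)).1) Filter.atTop (nhds p.1) :=
    (continuous_fst.tendsto p).comp hlim
  have h2 : Filter.Tendsto (fun n => (profile (T n)).2.1) Filter.atTop (nhds p.2.1) :=
    ((continuous_fst.comp continuous_snd).tendsto p).comp hlim
  have h3 : Filter.Tendsto (fun n => 6 / cZ (T n)) Filter.atTop (nhds 0) :=
    Filter.Tendsto.div_atTop tendsto_const_nhds hZ
  have h4 : Filter.Tendsto (fun n => 10 * (profile (T n)).2.1 + 2 * (profile (T n)).1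
      + 6 / cZ (T n)) Filter.atTop (nhds (10 * p.2.1 + 2 * p.1 + 0)) :=
    ((h2.const_mul 10).add (h1.const_mul 2)).add h3
  have h5 : 1 ≤ 10 * p.2.1 + 2 * p.1 + 0 := by
    apply ge_of_tendsto h4
    have hpos := hZ.eventually_gt_atTop 0
    filter_upwards [hpos] with n hn
    have hb := wye_bound (T n) (hT n)
    have hb' : (cY (T n) : ℝ) ≤ 9 * cS (T n) + cP (T n) + 6 := by exact_mod_cast hb
    unfold profile
    simp only []
    rw [← mul_div_assoc, ← mul_div_assoc, ← add_div, ← add_div, le_div_iff₀ hn]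
    unfold cZ
    linarith
  simp only []
  linarith

end Pool.Agent.U464.Wye
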